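import Mathlib
import Pool.Agent.Lib.MP_150b74_co.StepUp

/-!
MP_150b74_co, Q1: for every `r ≥ 3`, `q ≥ 5` and `ε < q - 4` there are weights with sum less than
`q - ε` whose quasi-Ramsey numbers grow doubly exponentially.
-/

set_option autoImplicit false

namespace Pool.Agent.Results.MP_150b74_co.DoublyExponential

open Finset Filter Asymptotics

/-- The hyperedges of the complete `r`-uniform hypergraph on `n` vertices. -/
abbrev Edge (n r : ℕ) : Type := {e : Finset (Fin n) // e.card = r}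

/-- The degree of the vertex `v` in `H_{φ,j}[S]`: the number of hyperedges of colour `j` that are
contained in `S` and contain `v`. -/
def deg {n r q : ℕ} (φ : Edge n r → Fin q) (j : Fin q) (S : Finset (Fin n)) (v : Fin n) : ℕ :=
  (univ.filter fun e : Edge n r => e.1 ⊆ S ∧ v ∈ e.1 ∧ φ e = j).card

/-- Every `q`-colouring of the complete `r`-uniform hypergraph on `n` vertices has a set `S` of
at least `k` vertices and a colour `j` such that `H_{φ,j}[S]` has minimum degree at least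
`ρ j * choose (|S| - 1) (r - 1)`. -/
def Arrows (r : ℕ) {q : ℕ} (ρ : Fin q → ℝ) (k n : ℕ) : Prop :=
  ∀ φ : Edge n r → Fin q, ∃ S : Finset (Fin n), k ≤ S.card ∧ ∃ j : Fin q,
    ∀ v ∈ S, ρ j * ((S.card - 1).choose (r - 1) : ℝ) ≤ (deg φ j S v : ℝ)

/-- `R k` is the quasi-Ramsey number of `ρ` for every `k ≥ 1`: the least `n` with the
property above. -/
def IsQuasiRamsey (r : ℕ) {q : ℕ} (ρ : Fin q → ℝ) (R : ℕ → ℕ) : Prop :=
  ∀ k, 1 ≤ k → IsLeast {n | Arrows r ρ k n} (R k)

/-- the top `m` elements of a finite set of a linear order -/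
theorem exists_top {n : ℕ} (S : Finset (Fin n)) : ∀ m : ℕ, m ≤ S.card →
    ∃ U ⊆ S, U.card = m ∧ ∀ x ∈ S \ U, ∀ y ∈ U, x < y
  | 0, _ => ⟨∅, empty_subset _, rfl, fun _ _ y hy => absurd hy (notMem_empty y)⟩
  | m + 1, h => by
    obtain ⟨U, hU, hc, hlt⟩ := exists_top S m (by omega)
    have hne : (S \ U).Nonempty := by
      rw [← card_pos, card_sdiff_of_subset hU]
      omega
    have hmax := (S \ U).max'_mem hne
    have hmS := (Finset.mem_sdiff.1 hmax).1
    have hmU := (Finset.mem_sdiff.1 hmax).2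
    refine ⟨insert ((S \ U).max' hne) U, insert_subset hmS hU, ?_, ?_⟩
    · rw [card_insert_of_notMem hmU, hc]
    · intro x hx y hy
      rw [Finset.mem_sdiff, mem_insert, not_or] at hx
      have hxU : x ∈ S \ U := Finset.mem_sdiff.2 ⟨hx.1, hx.2.2⟩
      rcases mem_insert.1 hy with rfl | hy
      · exact lt_of_le_of_ne ((S \ U).le_max' x hxU) hx.2.1
      · exact hlt x hxU y hy

/-- the three smallest elements -/
def low3 {n : ℕ} (e : Finset (Fin n)) : Finset (Fin n) :=
  e.filter fun x => (e.filter (· < x)).card < 3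

theorem low3_union {n : ℕ} {t U : Finset (Fin n)} (ht : t.card = 3)
    (h : ∀ x ∈ t, ∀ y ∈ U, x < y) : low3 (t ∪ U) = t := by
  ext x
  rw [low3, mem_filter, mem_union]
  constructor
  · rintro ⟨hx | hx, hlt⟩
    · exact hx
    · exfalso
      have : t ⊆ (t ∪ U).filter (· < x) := by
        intro y hy
        rw [mem_filter]
        exact ⟨mem_union_left _ hy, h y hy x hx⟩
      have := card_le_card this
      omega
  · intro hx
    refine ⟨Or.inl hx, ?_⟩
    have : (t ∪ U).filter (· < x) ⊆ t.erase x := by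
      intro y hy
      rw [mem_filter, mem_union] at hy
      rw [mem_erase]
      rcases hy.1 with hy1 | hy1
      · exact ⟨hy.2.ne, hy1⟩
      · exact absurd (h x hx y hy1) (not_lt.2 hy.2.le)
    have h2 := card_le_card this
    rw [card_erase_of_mem hx, ht] at h2
    omega

/-- the number of `r`-subsets of `S` that contain a given point of `S` is `C(|S| - 1, r - 1)` -/
theorem card_star {n r : ℕ} (S : Finset (Fin n)) (v : Fin n) (hv : v ∈ S) :
    (univ.filter fun e : Edge n r => e.1 ⊆ S ∧ v ∈ e.1).card ≤ (S.card - 1).choose (r - 1) := by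
  calc (univ.filter fun e : Edge n r => e.1 ⊆ S ∧ v ∈ e.1).card
      ≤ ((S.erase v).powersetCard (r - 1)).card := by
        apply card_le_card_of_injOn (fun e : Edge n r => e.1.erase v)
        · intro e he
          have he := (mem_filter.1 (mem_coe.1 he)).2
          rw [mem_coe, mem_powersetCard, card_erase_of_mem he.2, e.2]
          exact ⟨erase_subset_erase v he.1, rfl⟩
        · intro e he e' he' heq
          have he := (mem_filter.1 (mem_coe.1 he)).2
          have he' := (mem_filter.1 (mem_coe.1 he')).2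
          apply Subtype.ext
          rw [← insert_erase he.2, ← insert_erase he'.2]
          exact congrArg (insert v) heq
    _ = (S.card - 1).choose (r - 1) := by rw [card_powersetCard, card_erase_of_mem hv]

/-- **Lower bound.** With four weights `1` and positive weights otherwise, the quasi-Ramsey
number for `2 s + r - 1` exceeds `2 ^ (2 ^ s)`. -/
theorem lower {r q : ℕ} (hr : 3 ≤ r) (ρ : Fin q → ℝ) (hpos : ∀ j, 0 < ρ j)
    (h4 : 4 ≤ (univ.filter fun j => ρ j = 1).card) {s : ℕ} (hs : 1 ≤ s) {n : ℕ}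
    (hn : Arrows r ρ (2 * s + r - 1) n) : 2 ^ (2 ^ s) < n := by
  by_contra hcon
  rw [not_lt] at hcon
  obtain ⟨φ, hφ⟩ := Pool.Agent.Lib.MP_150b74_co.exists_triple_coloring s hs n hcon
  -- the four colours
  obtain ⟨T, hT, hTc⟩ := exists_subset_card_eq h4
  have hcard : Fintype.card (Bool × Bool) = Fintype.card T := by
    rw [Fintype.card_coe, hTc]
    rfl
  let enc : (Bool × Bool) ≃ T := Fintype.equivOfCardEq hcard
  obtain ⟨S, hS, j, hj⟩ := hn fun e => (enc (φ (low3 e.1))).1
  have hSne : S.Nonempty := by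
    rw [← card_pos]; omega
  by_cases hjT : j ∈ T
  · have hj1 : ρ j = 1 := (mem_filter.1 (hT hjT)).2
    have hall : ∀ e : Edge n r, e.1 ⊆ S → ((enc (φ (low3 e.1))).1 : Fin q) = j := by
      intro e he
      obtain ⟨v, hv⟩ : e.1.Nonempty := by
        rw [← card_pos, e.2]; omega
      have h1 := hj v (he hv)
      rw [hj1, one_mul] at h1
      have h2 : (S.card - 1).choose (r - 1) ≤
          deg (fun e : Edge n r => (enc (φ (low3 e.1))).1) j S v := by exact_mod_cast h1
      have h3 : (univ.filter fun e : Edge n r => e.1 ⊆ S ∧ v ∈ e.1 ∧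
          (enc (φ (low3 e.1))).1 = j) ⊆ univ.filter fun e : Edge n r => e.1 ⊆ S ∧ v ∈ e.1 := by
        intro e' he'
        rw [mem_filter] at he' ⊢
        exact ⟨he'.1, he'.2.1, he'.2.2.1⟩
      have h5 := eq_of_subset_of_card_le h3 ((card_star S v (he hv)).trans h2)
      have h6 : e ∈ univ.filter fun e : Edge n r => e.1 ⊆ S ∧ v ∈ e.1 :=
        mem_filter.2 ⟨mem_univ _, he, hv⟩
      rw [← h5] at h6
      exact (mem_filter.1 h6).2.2.2
    obtain ⟨U, hU, hUc, hlt⟩ := exists_top S (r - 3) (by omega)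
    have hS' : 2 * s + 2 ≤ (S \ U).card := by
      rw [card_sdiff_of_subset hU]
      omega
    have hcol : ∀ t ∈ (S \ U).powersetCard 3, enc (φ t) = ⟨j, hjT⟩ := by
      intro t ht
      rw [mem_powersetCard] at ht
      have hd : Disjoint t U := by
        rw [disjoint_left]
        intro x hx hxU
        exact (Finset.mem_sdiff.1 (ht.1 hx)).2 hxU
      have hcard : (t ∪ U).card = r := by
        rw [card_union_of_disjoint hd, ht.2, hUc]
        omega
      have h1 := hall ⟨t ∪ U, hcard⟩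
        (union_subset (fun x hx => (Finset.mem_sdiff.1 (ht.1 hx)).1) hU)
      have h2 : low3 (t ∪ U) = t := low3_union ht.2 fun x hx y hy => hlt x (ht.1 hx) y hy
      have h3 : ((enc (φ (low3 (t ∪ U)))).1 : Fin q) = j := h1
      rw [h2] at h3
      exact Subtype.ext h3
    have := hφ (S \ U) (enc.symm ⟨j, hjT⟩) fun t ht => by
      rw [← hcol t ht, Equiv.symm_apply_apply]
    omega
  · obtain ⟨v, hv⟩ := hSne
    have h1 := hj v hv
    have h2 : deg (fun e : Edge n r => (enc (φ (low3 e.1))).1) j S v = 0 := by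
      rw [deg, card_eq_zero, filter_eq_empty_iff]
      intro e _ he
      exact hjT (he.2.2 ▸ (enc (φ (low3 e.1))).2)
    rw [h2] at h1
    have h3 : 0 < (S.card - 1).choose (r - 1) := Nat.choose_pos (by omega)
    have h4 : (0 : ℝ) < ((S.card - 1).choose (r - 1) : ℝ) := by exact_mod_cast h3
    have h5 := mul_pos (hpos j) h4
    push_cast at h1
    linarith

/-- Exponential growth beats polynomial growth. -/
theorem exists_large (r : ℕ) (C D : ℝ) (K : ℕ) : ∃ s : ℕ, 1 ≤ s ∧ K ≤ s ∧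
    C * ((2 * s + r - 1 : ℕ) : ℝ) ^ D < 2 ^ s * Real.log 2 := by
  have hlog : 0 < Real.log 2 := Real.log_pos (by norm_num)
  have h1 : (fun x : ℝ => x ^ D) =o[atTop] fun x : ℝ => Real.exp (Real.log 2 / 4 * x) :=
    isLittleO_rpow_exp_pos_mul_atTop D (by positivity)
  have h2 : (fun x : ℝ => C * x ^ D) =o[atTop] fun x : ℝ => Real.exp (Real.log 2 / 4 * x) :=
    h1.const_mul_left C
  have h3 := h2.def (show 0 < Real.log 2 / 2 by positivity)
  have h4 : Tendsto (fun s : ℕ => ((2 * s + r - 1 : ℕ) : ℝ)) atTop atTop := by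
    apply tendsto_natCast_atTop_atTop.comp
    rw [tendsto_atTop]
    intro b
    filter_upwards [eventually_ge_atTop (b + 1)] with s hs
    omega
  obtain ⟨s, hs, hs1⟩ := ((h4.eventually h3).and (eventually_ge_atTop (r + K + 1))).exists
  refine ⟨s, by omega, by omega, ?_⟩
  rw [Real.norm_eq_abs, Real.norm_eq_abs, abs_of_pos (Real.exp_pos _)] at hs
  have h5 : Real.exp (Real.log 2 / 4 * ((2 * s + r - 1 : ℕ) : ℝ)) ≤ 2 ^ s := by
    have h6 : ((2 * s + r - 1 : ℕ) : ℝ) ≤ ((4 * s : ℕ) : ℝ) := by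
      exact_mod_cast (by omega : 2 * s + r - 1 ≤ 4 * s)
    have h7 : Real.log 2 / 4 * ((2 * s + r - 1 : ℕ) : ℝ) ≤ Real.log 2 * s := by
      push_cast at h6
      calc Real.log 2 / 4 * ((2 * s + r - 1 : ℕ) : ℝ)
          ≤ Real.log 2 / 4 * (4 * s) := by gcongr
        _ = Real.log 2 * s := by ring
    calc Real.exp (Real.log 2 / 4 * ((2 * s + r - 1 : ℕ) : ℝ))
        ≤ Real.exp (Real.log 2 * s) := Real.exp_le_exp.2 h7
      _ = 2 ^ s := by
        rw [← Real.rpow_def_of_pos (by norm_num : (0 : ℝ) < 2), Real.rpow_natCast]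
  calc C * ((2 * s + r - 1 : ℕ) : ℝ) ^ D ≤ |C * ((2 * s + r - 1 : ℕ) : ℝ) ^ D| := le_abs_self _
    _ ≤ Real.log 2 / 2 * Real.exp (Real.log 2 / 4 * ((2 * s + r - 1 : ℕ) : ℝ)) := hs
    _ ≤ Real.log 2 / 2 * 2 ^ s := by gcongr
    _ < 2 ^ s * Real.log 2 := by
      have : (0 : ℝ) < 2 ^ s := by positivity
      nlinarith

theorem not_isBigO {r q : ℕ} (hr : 3 ≤ r) (ρ : Fin q → ℝ) (hpos : ∀ j, 0 < ρ j)
    (h4 : 4 ≤ (univ.filter fun j => ρ j = 1).card) (D : ℝ) (R : ℕ → ℕ)
    (hR : IsQuasiRamsey r ρ R) :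
    ¬ (fun k : ℕ => Real.log (R k)) =O[atTop] fun k : ℕ => (k : ℝ) ^ D := by
  intro h
  obtain ⟨C, hC⟩ := h.bound
  obtain ⟨K, hK⟩ := eventually_atTop.1 hC
  obtain ⟨s, hs, hKs, hlt⟩ := exists_large r C D K
  have h1 := hK (2 * s + r - 1) (by omega)
  have h2 : 2 ^ (2 ^ s) < R (2 * s + r - 1) :=
    lower hr ρ hpos h4 hs (hR (2 * s + r - 1) (by omega)).1
  have h3 : (0 : ℝ) < 2 ^ (2 ^ s) := by positivity
  have h4 : ((2 : ℝ) ^ (2 ^ s)) < (R (2 * s + r - 1) : ℝ) := by exact_mod_cast h2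
  have h5 : (2 : ℝ) ^ s * Real.log 2 ≤ Real.log (R (2 * s + r - 1)) := by
    have := Real.log_le_log h3 h4.le
    rw [Real.log_pow] at this
    push_cast at this
    exact this
  rw [Real.norm_eq_abs, Real.norm_eq_abs, abs_of_nonneg (by positivity : (0:ℝ) ≤
    ((2 * s + r - 1 : ℕ) : ℝ) ^ D)] at h1
  have h6 := le_abs_self (Real.log (R (2 * s + r - 1)))
  linarith

/-- **Negative answer to Q1, for every `r ≥ 3`, every `q ≥ 5` and every `ε < q - 4`**, with
weights that do not depend on `D`, and doubly exponential growth. -/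
theorem result (r q : ℕ) (hr : 3 ≤ r) (hq : 5 ≤ q) (ε : ℝ) (hε : ε < q - 4) :
    ∃ ρ : Fin q → ℝ, (∀ i, 0 ≤ ρ i ∧ ρ i ≤ 1) ∧ ∑ i, ρ i < q - ε ∧
      (∀ s, 1 ≤ s → ∀ n, Arrows r ρ (2 * s + r - 1) n → 2 ^ (2 ^ s) < n) ∧
      ∀ (D : ℝ) (R : ℕ → ℕ), IsQuasiRamsey r ρ R →
        ¬ (fun k : ℕ => Real.log (R k)) =O[atTop] fun k : ℕ => (k : ℝ) ^ D := by
  obtain ⟨T, -, hT⟩ := exists_subset_card_eq (s := (univ : Finset (Fin q))) (n := 4)
    (by rw [card_univ, Fintype.card_fin]; omega)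
  have hq4 : (0 : ℝ) < q - 4 := by
    have : (5 : ℝ) ≤ q := by exact_mod_cast hq
    linarith
  let η : ℝ := min 1 ((q - 4 - ε) / (2 * (q - 4)))
  have hη0 : 0 < η := lt_min one_pos (div_pos (by linarith) (by linarith))
  have hη1 : η ≤ 1 := min_le_left _ _
  have hη2 : (q - 4) * η ≤ (q - 4 - ε) / 2 := by
    calc ((q : ℝ) - 4) * η ≤ (q - 4) * ((q - 4 - ε) / (2 * (q - 4))) :=
          mul_le_mul_of_nonneg_left (min_le_right _ _) hq4.le
      _ = (q - 4 - ε) / 2 := by field_simp
  let ρ : Fin q → ℝ := fun j => if j ∈ T then 1 else η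
  have hρ1 : ∀ j ∈ T, ρ j = 1 := fun j hj => if_pos hj
  have hpos : ∀ j, 0 < ρ j := by
    intro j
    by_cases hj : j ∈ T
    · rw [hρ1 j hj]; exact one_pos
    · simp only [ρ, if_neg hj]; exact hη0
  have hle : ∀ j, ρ j ≤ 1 := by
    intro j
    by_cases hj : j ∈ T
    · rw [hρ1 j hj]
    · simp only [ρ, if_neg hj]; exact hη1
  have h4 : 4 ≤ (univ.filter fun j => ρ j = 1).card := by
    rw [← hT]
    exact card_le_card fun j hj => mem_filter.2 ⟨mem_univ _, hρ1 j hj⟩
  have hsum : ∑ i, ρ i = 4 + (q - 4) * η := by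
    have e1 : (univ.filter fun j : Fin q => j ∈ T) = T := by ext; simp
    have e2 : (univ.filter fun j : Fin q => j ∉ T).card = q - 4 := by
      have := card_filter_add_card_filter_not (s := (univ : Finset (Fin q))) (fun j => j ∈ T)
      rw [e1, hT, card_univ, Fintype.card_fin] at this
      omega
    simp only [ρ]
    rw [sum_ite, sum_const, sum_const, e1, e2, hT, nsmul_eq_mul, nsmul_eq_mul,
      Nat.cast_sub (by omega : 4 ≤ q)]
    push_cast
    ring
  refine ⟨ρ, fun i => ⟨(hpos i).le, hle i⟩, ?_, fun s hs n hn => lower hr ρ hpos h4 hs hn,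
    fun D R hR => not_isBigO hr ρ hpos h4 D R hR⟩
  rw [hsum]
  linarith

end Pool.Agent.Results.MP_150b74_co.DoublyExponential
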